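import Mathlib
import Pool.Agent.helper19.IT.Defs
import Pool.Agent.helper19.IT.Basic
import Pool.Agent.helper19.IT.Upper
import Pool.Agent.helper19.IT.Upper2

/-!
# MP_669a53_lc : the fibres of `F_M` in binary NIP theories

`U` is the monster model: all that is needed of it is that it is `(|M| + ℵ₀)⁺`-saturated.
-/

set_option autoImplicit false

namespace Pool.Agent.Results.MP_669a53_lc.BinaryFibers

open FirstOrder FirstOrder.Language Cardinal Pool.Agent.helper19.IT

universe u

/-- **Binary NIP theories.** For every `φ(y; x)` there is a number `K`, depending on `φ` only, such that for every small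
`M` and every `r` the `M`-invariant global types extending `r` have at most `K` different `φ`-types. Consequently `r` has
at most `2^|T|` extensions to `M`-invariant global types, and all fibres of `F_M` have size at most `2^|T|`. -/
theorem result {L : FirstOrder.Language.{u, u}} {U : Type u} [L.Structure U] (hN : NIP L U) (hB : Binary L U) (n : ℕ) :
    (∀ (m : ℕ) (φ : L.Formula (Fin m ⊕ Fin n)), ∃ K : ℕ, ∀ M : Set U,
      Saturated L U (Order.succ (max ℵ₀ (Cardinal.mk M))) → ∀ r : Set (L.Formula (M ⊕ Fin n)),
      Cardinal.mk {t : Set (Fin m → U) // ∃ p : GType L U n, p.Invariant M ∧ p.restrict M = r ∧ p.trace φ = t} ≤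
        (K : Cardinal.{u})) ∧
    (∀ M : Set U, Saturated L U (Order.succ (max ℵ₀ (Cardinal.mk M))) → ∀ r : Set (L.Formula (M ⊕ Fin n)),
      Cardinal.mk {p : GType L U n // p.Invariant M ∧ p.restrict M = r} ≤ 2 ^ (max ℵ₀ L.card)) ∧
    (∀ M M' N' N : L.ElementarySubstructure U, Saturated L U (Order.succ (max ℵ₀ (Cardinal.mk M))) →
      Aux L U M M' N' N → ∀ q : GType L U n, Cardinal.mk (Fiber M M' N q) ≤ 2 ^ (max ℵ₀ L.card)) :=
  ⟨fun _ φ => traces_le hN hB φ, fun M hU r => invariant_le hN hB M hU r,
    fun M M' N' N hU hA q => fiber_le hN hB M M' N' N hU hA q⟩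

end Pool.Agent.Results.MP_669a53_lc.BinaryFibers
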