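import Mathlib
import Pool.Agent.helper19.IT.Defs
import Pool.Agent.helper19.IT.Basic
import Pool.Agent.helper19.IT.LB1
import Pool.Agent.helper19.IT.LB2
import Pool.Agent.helper19.IT.LB3
import Pool.Agent.helper19.IT.LB4
import Pool.Agent.helper19.IT.LB5
import Pool.Agent.helper19.IT.Sat3
import Pool.Agent.helper92.IT.AuxEx

/-!
# MP_669a53_lc : fibres of `F_M` of size `2^|T|`

`LO ι` is the language with a binary relation `≤_i` for each `i : ι`, and `Std ι` is the structure of all finitely
supported functions `x : ι → ℚ`, where `x ≤_i y` means `x i ≤ y i`. The theory is `T = Th(Std ι)`.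
-/

set_option autoImplicit false

namespace Pool.Agent.Results.MP_669a53_lc.LowerBound

open FirstOrder FirstOrder.Language Cardinal Pool.Agent.helper19.IT

universe u

/-- **Lower bound.** For every infinite `κ = |ι|` the theory `T = Th(Std ι)` satisfies `|L| = κ`, is binary and has NIP,
and for every monster model `U` of `T` (`(|M| + ℵ₀)⁺`-saturated is enough) and every model `M ≺ U` there is a type `q`,
finitely satisfiable in `M`, with `|F_M⁻¹(q)| ≥ 2^κ`, for all choices of the auxiliary models. The last clause says that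
such `U` (with any prescribed degree of saturation), `M` and auxiliary models exist. So `f(κ) ≥ 2^κ` for every function
`f` as in Q1. -/
theorem result (ι : Type u) [Infinite ι] : (LO ι).card = Cardinal.mk ι ∧
    (∀ (U : Type u) [(LO ι).Structure U], Std ι ≅[LO ι] U → NIP (LO ι) U ∧ Binary (LO ι) U ∧
      ∀ M : (LO ι).ElementarySubstructure U, Saturated (LO ι) U (Order.succ (max ℵ₀ (Cardinal.mk M))) →
        ∃ q : GType (LO ι) U 1, q.FinSatIn (M : Set U) ∧ ∀ M' N' N : (LO ι).ElementarySubstructure U,
          Aux (LO ι) U M M' N' N → 2 ^ Cardinal.mk ι ≤ Cardinal.mk (Fiber M M' N q)) ∧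
    ∀ κ : Cardinal.{u}, ∃ (U : Type u) (_ : (LO ι).Structure U) (M M' N' N : (LO ι).ElementarySubstructure U),
      (Std ι ≅[LO ι] U) ∧ Saturated (LO ι) U κ ∧ Saturated (LO ι) U (Order.succ (max ℵ₀ (Cardinal.mk M))) ∧
      Aux (LO ι) U M M' N' N := by
  refine ⟨card_LO ι, fun U _ hV => ⟨nip_LO hV, binary_LO hV, fun M hU => ?_⟩, fun κ => ?_⟩
  · have hM : Nonempty M := (hV.trans M.elementarilyEquivalent.symm).nonempty
    obtain ⟨o, ho⟩ := hM
    exact ⟨pS hV (M : Set U) o ∅, pS_finSat hV M o ho, fun M' N' N hA => fiber_ge hV M hU o ho M' N' N hA⟩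
  · have hinf : Infinite (Std ι) := by
      refine Infinite.of_injective (fun i : ι => (Finsupp.single i 1 : ι →₀ ℚ)) ?_
      exact Finsupp.single_left_injective one_ne_zero
    obtain ⟨U, hs, M, M', N', N, h1, -, h2, h3, h4⟩ :=
      Pool.Agent.helper92.IT.exists_aux (fun L V _ _ κ => exists_saturated L V κ) (LO ι) (Std ι) κ
    exact ⟨U, hs, M, M', N', N, h1, h2, h3, h4⟩

end Pool.Agent.Results.MP_669a53_lc.LowerBound
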