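import Mathlib
import Pool.Agent.helper86.FM.DenseOrders

/-!
# Fibres of Simon's map `F_M`

If the types of `n`-tuples are determined by the formulas of `|I|` monadically NIP reducts applied to
`|J|` terms, then the fibres of `F_M` on `n`-types have at most `2^(|I||J|)` elements.
-/

namespace Pool.Agent.Results.MP_669a53_lc.MonadicallyNIPFibres

open Pool.Agent.helper86.FM FirstOrder FirstOrder.Language Cardinal

universe u v w u' v' w'

theorem result :
    -- (1) the fibres embed into `I → Set J`
    (∀ (L : FirstOrder.Language.{u, v}) (U : Type w) [L.Structure U] [Nonempty U]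
      (I : Type w') (K : I → FirstOrder.Language.{u', v'}) [∀ i, (K i).Structure U]
      (F : ∀ i, K i →ᴸ L) [∀ i, (F i).IsExpansionOn U] (_ : ∀ i, FSDichotomy (K i) U)
      (J : Type w') (n : ℕ) (t : J → L.Term (Fin n)) (_ : Determined (U := U) K t)
      (M M' N N' : L.ElementarySubstructure U) (_ : Frame M M' N N') (q : GType L U n),
        ∃ f : Fibre M M' N q → (I → Set J), Function.Injective f) ∧
    -- (2) the bound `2^|T|`
    (∀ (L : FirstOrder.Language.{u, v}) (U : Type w) [L.Structure U] [Nonempty U]
      (I : Type w') (K : I → FirstOrder.Language.{u', v'}) [∀ i, (K i).Structure U]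
      (F : ∀ i, K i →ᴸ L) [∀ i, (F i).IsExpansionOn U] (_ : ∀ i, FSDichotomy (K i) U)
      (n : ℕ) (_ : Determined (U := U) K (fun t : L.Term (Fin n) => t))
      (_ : Cardinal.lift.{max u v} #I ≤ Cardinal.lift.{w'} (max ℵ₀ L.card))
      (M M' N N' : L.ElementarySubstructure U) (_ : Frame M M' N N') (q : GType L U n),
        #(Fibre M M' N q) ≤ Cardinal.lift.{w} (2 ^ max ℵ₀ L.card)) ∧
    -- (3) the bound `2^n` when `L` itself has the f.s. dichotomy
    (∀ (L : FirstOrder.Language.{u, v}) (U : Type w) [L.Structure U] [Nonempty U]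
      (_ : FSDichotomy L U) (n : ℕ) (M M' N N' : L.ElementarySubstructure U)
      (_ : Frame M M' N N') (q : GType L U n),
        Finite (Fibre M M' N q) ∧ Nat.card (Fibre M M' N q) ≤ 2 ^ n) ∧
    -- (4) types determined by the comparisons of terms in dense linear orders
    (∀ (L : FirstOrder.Language.{u, v}) (U : Type w) [L.Structure U] [Nonempty U]
      (I : Type w') (R : I → L.Relations 2) (_ : ∀ i, DenseOrder (U := U) (Cmp (R i)))
      (J : Type w') (n : ℕ) (t : J → L.Term (Fin n)) (_ : DeterminedCmp U R t)
      (M M' N N' : L.ElementarySubstructure U) (_ : Frame M M' N N') (q : GType L U n),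
        ∃ f : Fibre M M' N q → (I → Set J), Function.Injective f) := by
  refine ⟨?_, ?_, ?_, ?_⟩
  · intro L U _ _ I K _ F _ hD J n t hdet M M' N N' hF q
    exact embeds K F hD t hdet hF q
  · intro L U _ _ I K _ F _ hD n hdet hI M M' N N' hF q
    exact bound K F hD hdet hI hF q
  · intro L U _ _ hD n M M' N N' hF q
    exact bound_mon hD hF q
  · intro L U _ _ I R hR J n t hdet M M' N N' hF q
    exact orders R hR t hdet hF q

end Pool.Agent.Results.MP_669a53_lc.MonadicallyNIPFibres
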